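import Pool.Agent.Helper24.HN.Defs
import Pool.Agent.Helper45.XN.Ball

/-!
# Dynamics near a flop curve: the first graph
-/

set_option autoImplicit false

namespace Pool.Agent.Helper45.HN

open Pool.Agent.Helper24.HN

variable {p : ℕ} [Fact p.Prime] {n : ℕ}

theorem one_lt_p : (1 : ℝ) < p := by exact_mod_cast (Fact.out : p.Prime).one_lt

theorem p2_lt : (p : ℝ) ^ (-2 : ℤ) < (p : ℝ) ^ (-1 : ℤ) :=
  zpow_lt_zpow_right₀ one_lt_p (by norm_num)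

theorem p2_pos : (0 : ℝ) < (p : ℝ) ^ (-2 : ℤ) := zpow_pos (zero_lt_one.trans one_lt_p) _

theorem p2_le_one : (p : ℝ) ^ (-2 : ℤ) ≤ 1 := zpow_le_one_of_nonpos₀ one_lt_p.le (by norm_num)

theorem norm_add_le' {a b : ℤ_[p]} {r : ℝ} (ha : ‖a‖ ≤ r) (hb : ‖b‖ ≤ r) : ‖a + b‖ ≤ r :=
  (IsUltrametricDist.norm_add_le_max a b).trans (max_le ha hb)

theorem norm_sub_le' {a b : ℤ_[p]} {r : ℝ} (ha : ‖a‖ ≤ r) (hb : ‖b‖ ≤ r) : ‖a - b‖ ≤ r := by
  rw [sub_eq_add_neg]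
  exact norm_add_le' ha (by rwa [norm_neg])

theorem norm_mul_le' {a b : ℤ_[p]} {r : ℝ} (ha : ‖a‖ ≤ r) : ‖a * b‖ ≤ r := by
  rw [norm_mul]
  calc ‖a‖ * ‖b‖ ≤ ‖a‖ * 1 := mul_le_mul_of_nonneg_left (PadicInt.norm_le_one _) (norm_nonneg _)
    _ ≤ r := by rwa [mul_one]

/-- The value of the equation, second order. -/
theorem F_taylor (L : Loc p n) (x h : V p n) (w : ℤ_[p]) :
    ‖L.F (x + h) w - L.F x w - L.dF x h w‖ ≤ ‖h‖ ^ 2 := by
  have h1 : L.F (x + h) w - L.F x w - L.dF x h w =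
      (L.A (x + h) - L.A x - L.dA x h) * w ^ 2 + (L.B (x + h) - L.B x - L.dB x h) * w +
        (L.C (x + h) - L.C x - L.dC x h) := by
    simp only [Loc.F, Loc.dF]
    ring
  rw [h1]
  exact norm_add_le' (norm_add_le' (norm_mul_le' (L.hA x h)) (norm_mul_le' (L.hB x h))) (L.hC x h)

/-- The derivative of the equation is Lipschitz. -/
theorem dF_sub (L : Loc p n) (x h v : V p n) (w : ℤ_[p]) :
    ‖L.dF (x + h) v w - L.dF x v w‖ ≤ ‖h‖ * ‖v‖ := by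
  have h1 : L.dF (x + h) v w - L.dF x v w =
      (L.dA (x + h) v - L.dA x v) * w ^ 2 + (L.dB (x + h) v - L.dB x v) * w +
        (L.dC (x + h) v - L.dC x v) := by
    simp only [Loc.dF]
    ring
  rw [h1]
  exact norm_add_le' (norm_add_le' (norm_mul_le' (L.hdA x h v)) (norm_mul_le' (L.hdB x h v))) (L.hdC x h v)

theorem dF_sub_z (L : Loc p n) (x v : V p n) (w z : ℤ_[p]) : ‖L.dF x v w - L.dF x v z‖ ≤ ‖w - z‖ := by
  have h1 : L.dF x v w - L.dF x v z = (w - z) * (L.dA x v * (w + z) + L.dB x v) := by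
    simp only [Loc.dF]
    ring
  rw [h1]
  exact norm_mul_le' le_rfl

theorem dF_smul (L : Loc p n) (x v : V p n) (t w : ℤ_[p]) : L.dF x (t • v) w = t * L.dF x v w := by
  simp only [Loc.dF, map_smul, smul_eq_mul]
  ring

theorem F_sub_z (L : Loc p n) (x : V p n) (w z : ℤ_[p]) :
    L.F x w - L.F x z = (w - z) * (L.A x * (w + z) + L.B x) := by
  simp only [Loc.F]
  ring

/-- A quadratic polynomial with two different zeros. -/
theorem F_of_roots (L : Loc p n) (x : V p n) {w z : ℤ_[p]} (hwz : w ≠ z) (hw : L.F x w = 0)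
    (hz : L.F x z = 0) (v : ℤ_[p]) : L.F x v = L.A x * (v - z) * (v - w) := by
  have h1 := F_sub_z L x w z
  rw [hw, hz, sub_zero] at h1
  have h2 : L.A x * (w + z) + L.B x = 0 := by
    rcases mul_eq_zero.1 h1.symm with h | h
    · exact absurd (sub_eq_zero.1 h) hwz
    · exact h
  simp only [Loc.F] at hz ⊢
  linear_combination hz + (v - z) * h2

variable {L : Loc p n} {J : Type} [DecidableEq J] {R : Ref L J} (M : Mems L R)

theorem norm_smul_xi (t : ℤ_[p]) (v : V p n) : ‖t • v‖ ≤ ‖t‖ := by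
  rw [norm_smul]
  have h1 : ‖v‖ ≤ 1 := (pi_norm_le_iff_of_nonneg zero_le_one).2 fun i => PadicInt.norm_le_one _
  calc ‖t‖ * ‖v‖ ≤ ‖t‖ * 1 := mul_le_mul_of_nonneg_left h1 (norm_nonneg _)
    _ = ‖t‖ := mul_one _

/-- Differences of the values on the line. -/
theorem line_sub (L : Loc p n) (u v : V p n) (c w z s t : ℤ_[p]) (hc : L.dF u v z = c)
    (hw : ‖w - z‖ ≤ (p : ℝ) ^ (-2 : ℤ)) (hs : ‖s‖ ≤ (p : ℝ) ^ (-2 : ℤ)) (ht : ‖t‖ ≤ (p : ℝ) ^ (-2 : ℤ)) :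
    ‖L.F (u + s • v) w - L.F (u + t • v) w - c * (s - t)‖ ≤ (p : ℝ) ^ (-2 : ℤ) * ‖s - t‖ := by
  have hst : ‖s - t‖ ≤ (p : ℝ) ^ (-2 : ℤ) := norm_sub_le' hs ht
  have e1 : u + s • v = (u + t • v) + (s - t) • v := by
    rw [sub_smul]
    abel
  have h1 := F_taylor L (u + t • v) ((s - t) • v) w
  rw [← e1, dF_smul] at h1
  have h2 := dF_sub L u (t • v) v w
  have h3 := dF_sub_z L u v w z
  rw [hc] at h3
  have hv : ‖v‖ ≤ 1 := (pi_norm_le_iff_of_nonneg zero_le_one).2 fun i => PadicInt.norm_le_one _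
  have h4 : ‖(s - t) • v‖ ≤ ‖s - t‖ := norm_smul_xi _ _
  have e2 : L.F (u + s • v) w - L.F (u + t • v) w - c * (s - t) =
      (L.F (u + s • v) w - L.F (u + t • v) w - (s - t) * L.dF (u + t • v) v w) +
        ((s - t) * (L.dF (u + t • v) v w - L.dF u v w) + (s - t) * (L.dF u v w - c)) := by ring
  rw [e2]
  have h5 : (0 : ℝ) ≤ ‖s - t‖ := norm_nonneg _
  refine norm_add_le' ?_ (norm_add_le' ?_ ?_)
  · refine h1.trans ?_
    calc ‖(s - t) • v‖ ^ 2 ≤ ‖s - t‖ ^ 2 := pow_le_pow_left₀ (norm_nonneg _) h4 2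
      _ = ‖s - t‖ * ‖s - t‖ := sq _
      _ ≤ (p : ℝ) ^ (-2 : ℤ) * ‖s - t‖ := mul_le_mul_of_nonneg_right hst h5
  · rw [norm_mul, mul_comm]
    refine mul_le_mul_of_nonneg_right ?_ h5
    calc _ ≤ ‖t • v‖ * ‖v‖ := h2
      _ ≤ ‖t‖ * 1 := mul_le_mul (norm_smul_xi _ _) hv (norm_nonneg _) (norm_nonneg _)
      _ ≤ _ := by rwa [mul_one]
  · rw [norm_mul, mul_comm]
    exact mul_le_mul_of_nonneg_right (h3.trans hw) h5

/-- D3: the first graph. -/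
theorem start : ∃ x, St M R.y R.j 2 0 x := by
  classical
  set v : V p n := L.xi R.u0 (R.z R.y) with hv
  set c : ℤ_[p] := L.dF R.u0 v (R.z R.j) with hc
  have hc1 : ‖c‖ = 1 := R.hT R.j R.y (Ne.symm R.hyj) (Or.inr R.hym)
  have hz : ∀ w : ℤ_[p], ‖w - R.z R.j‖ ≤ (p : ℝ) ^ (-2 : ℤ) → ‖w - R.z R.y‖ = 1 := by
    intro w hw
    have h1 : w - R.z R.y = (w - R.z R.j) + (R.z R.j - R.z R.y) := by ring
    have h2 : ‖R.z R.j - R.z R.y‖ = 1 := R.hz _ _ (Ne.symm R.hyj)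
    have h3 : ‖w - R.z R.j‖ < 1 := hw.trans_lt (p2_lt.trans_le (zpow_le_one_of_nonpos₀ one_lt_p.le (by norm_num)))
    rw [h1, IsUltrametricDist.norm_add_eq_max_of_norm_ne_norm (by rw [h2]; exact h3.ne), h2, max_eq_right h3.le]
  have hF0 : ∀ w, ‖L.F R.u0 w‖ ≤ (p : ℝ) ^ (-2 : ℤ) := fun w =>
    norm_add_le' (norm_add_le' (norm_mul_le' R.hA0) (norm_mul_le' R.hB0)) R.hC0
  have hsub : ∀ w s t : ℤ_[p], ‖w - R.z R.j‖ ≤ (p : ℝ) ^ (-2 : ℤ) → ‖s‖ ≤ (p : ℝ) ^ (-2 : ℤ) →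
      ‖t‖ ≤ (p : ℝ) ^ (-2 : ℤ) →
      ‖L.F (R.u0 + s • v) w - L.F (R.u0 + t • v) w - c * (s - t)‖ ≤ (p : ℝ) ^ (-2 : ℤ) * ‖s - t‖ :=
    fun w s t hw hs ht => line_sub L R.u0 v c w (R.z R.j) s t rfl hw hs ht
  -- the parameter
  have hex : ∀ w : ℤ_[p], ‖w - R.z R.j‖ ≤ (p : ℝ) ^ (-2 : ℤ) → ∃ t : ℤ_[p], ‖t‖ ≤ (p : ℝ) ^ (-2 : ℤ) ∧
      L.F (R.u0 + t • v) w = 0 := by
    intro w hw
    obtain ⟨t, ht, ht0, -⟩ := Pool.Agent.Helper45.XN.exists_root_of_slope (fun t => L.F (R.u0 + t • v) w) 0 c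
      ((p : ℝ) ^ (-2 : ℤ)) p2_pos.le hc1 (fun s t hs ht => by
        rw [sub_zero] at hs ht
        refine (hsub w s t hw hs ht).trans (mul_le_mul_of_nonneg_right ?_ (norm_nonneg _))
        rw [← zpow_neg_one]
        exact p2_lt.le) (by
        simpa using hF0 w)
    rw [sub_zero] at ht
    exact ⟨t, ht, ht0⟩
  choose! T hT hT0 using hex
  have hroots : ∀ w, ‖w - R.z R.j‖ ≤ (p : ℝ) ^ (-2 : ℤ) → ∀ s,
      L.F (R.u0 + T w • v) s = L.A (R.u0 + T w • v) * (s - R.z R.y) * (s - w) := by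
    intro w hw s
    have hne : w ≠ R.z R.y := by
      intro h
      have := hz w hw
      rw [h, sub_self, norm_zero] at this
      exact zero_ne_one this
    exact F_of_roots L _ hne (hT0 w hw) (M.line _ (hT w hw)) s
  have hlead : ∀ w, ‖w - R.z R.j‖ ≤ (p : ℝ) ^ (-2 : ℤ) →
      ‖L.A (R.u0 + T w • v)‖ = (p : ℝ) ^ (-2 : ℤ) := by
    intro w hw
    have hst : ‖L.A R.u0 * c - L.dA R.u0 v * L.F R.u0 (R.z R.j)‖ = (p : ℝ) ^ (-2 : ℤ) := R.hst
    have hT1 := hT w hw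
    -- first order
    have h1 := L.hA R.u0 (T w • v)
    rw [map_smul, smul_eq_mul] at h1
    have h2 := hsub w (T w) 0 hw hT1 (by simpa using p2_pos.le)
    rw [hT0 w hw, zero_smul, add_zero, sub_zero, zero_sub] at h2
    have h4 : ‖T w • v‖ ^ 2 ≤ (p : ℝ) ^ (-2 : ℤ) * (p : ℝ) ^ (-2 : ℤ) := by
      rw [sq]
      exact mul_le_mul ((norm_smul_xi _ _).trans hT1) ((norm_smul_xi _ _).trans hT1) (norm_nonneg _) p2_pos.le
    have h5 : ‖L.F R.u0 w - L.F R.u0 (R.z R.j)‖ ≤ (p : ℝ) ^ (-2 : ℤ) * (p : ℝ) ^ (-2 : ℤ) := by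
      rw [F_sub_z, norm_mul]
      exact mul_le_mul hw (norm_add_le' (norm_mul_le' R.hA0) R.hB0) (norm_nonneg _) p2_pos.le
    have h6 : (p : ℝ) ^ (-2 : ℤ) * (p : ℝ) ^ (-2 : ℤ) < (p : ℝ) ^ (-2 : ℤ) := by
      have : (p : ℝ) ^ (-2 : ℤ) < 1 :=
        p2_lt.trans_le (zpow_le_one_of_nonpos₀ one_lt_p.le (by norm_num))
      nlinarith [p2_pos (p := p)]
    have e1 : c * L.A (R.u0 + T w • v) = (L.A R.u0 * c - L.dA R.u0 v * L.F R.u0 (R.z R.j)) +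
        (c * (L.A (R.u0 + T w • v) - L.A R.u0 - T w * L.dA R.u0 v) -
          (-L.F R.u0 w - c * T w) * L.dA R.u0 v -
          (L.F R.u0 w - L.F R.u0 (R.z R.j)) * L.dA R.u0 v) := by ring
    have h7 : ‖c * (L.A (R.u0 + T w • v) - L.A R.u0 - T w * L.dA R.u0 v) -
          (-L.F R.u0 w - c * T w) * L.dA R.u0 v -
          (L.F R.u0 w - L.F R.u0 (R.z R.j)) * L.dA R.u0 v‖ ≤ (p : ℝ) ^ (-2 : ℤ) * (p : ℝ) ^ (-2 : ℤ) := by
      refine norm_sub_le' (norm_sub_le' ?_ (norm_mul_le' ?_)) (norm_mul_le' h5)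
      · rw [norm_mul, hc1, one_mul]
        exact h1.trans h4
      · exact h2.trans (mul_le_mul_of_nonneg_left hT1 p2_pos.le)
    have h8 : ‖c * L.A (R.u0 + T w • v)‖ = (p : ℝ) ^ (-2 : ℤ) := by
      rw [e1, IsUltrametricDist.norm_add_eq_max_of_norm_ne_norm (by
        rw [hst]
        exact (h7.trans_lt h6).ne'), hst, max_eq_left (h7.trans h6.le)]
    rwa [norm_mul, hc1, one_mul] at h8
  have hne : ∀ w, ‖w - R.z R.j‖ ≤ (p : ℝ) ^ (-2 : ℤ) → L.A (R.u0 + T w • v) ≠ 0 := by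
    intro w hw h
    have := hlead w hw
    rw [h, norm_zero] at this
    exact p2_pos.ne this
  refine ⟨fun w => R.u0 + T w • v, R.hyj, le_rfl, ?_, ?_, ?_, ?_, ?_⟩
  · intro w hw
    rw [add_sub_cancel_left]
    exact (norm_smul_xi _ _).trans (hT w hw)
  · intro w hw
    exact M.start (T w) w (hT w hw) (hne w hw) (hroots w hw)
  · intro w hw
    exact hlead w hw
  · intro z w hz' hw
    have e1 : (R.u0 + T z • v) - (R.u0 + T w • v) = (T z - T w) • v := by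
      rw [sub_smul]
      abel
    rw [e1]
    refine (norm_smul_xi _ _).trans ?_
    by_cases hzw : T z = T w
    · rw [hzw, sub_self, norm_zero]
      exact mul_nonneg p2_pos.le (norm_nonneg _)
    have h1 := hsub w (T z) (T w) hw (hT z hz') (hT w hw)
    rw [hT0 w hw, sub_zero, hroots z hz' w] at h1
    have h2 : ‖L.A (R.u0 + T z • v) * (w - R.z R.y) * (w - z)‖ = (p : ℝ) ^ (-2 : ℤ) * ‖z - w‖ := by
      rw [norm_mul, norm_mul, hlead z hz', hz w hw, mul_one, norm_sub_rev w z]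
    have h0 : 0 < ‖T z - T w‖ := norm_pos_iff.2 (sub_ne_zero.2 hzw)
    have h3 : ‖c * (T z - T w)‖ = ‖T z - T w‖ := by rw [norm_mul, hc1, one_mul]
    have h4 : (p : ℝ) ^ (-2 : ℤ) * ‖T z - T w‖ < ‖T z - T w‖ := by
      have : (p : ℝ) ^ (-2 : ℤ) < 1 :=
        p2_lt.trans_le (zpow_le_one_of_nonpos₀ one_lt_p.le (by norm_num))
      nlinarith
    have h5 : ‖T z - T w‖ ≤ ‖L.A (R.u0 + T z • v) * (w - R.z R.y) * (w - z)‖ := by
      by_contra hcon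
      push Not at hcon
      have h6 : ‖L.A (R.u0 + T z • v) * (w - R.z R.y) * (w - z) - c * (T z - T w)‖ = ‖T z - T w‖ := by
        rw [sub_eq_add_neg, IsUltrametricDist.norm_add_eq_max_of_norm_ne_norm (by
          rw [norm_neg, h3]
          exact hcon.ne), norm_neg, h3, max_eq_right hcon.le]
      rw [h6] at h1
      exact absurd h1 (not_le.2 h4)
    rwa [h2] at h5
  · intro w hw
    refine ⟨R.z R.y, ?_, fun s => ?_⟩
    · rw [sub_self, norm_zero]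
      exact p2_pos.le
    · rw [hroots w hw s]
      ring

end Pool.Agent.Helper45.HN
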