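import Pool.Agent.Helper45.XN.Near
import Pool.Agent.Helper45.XN.Ball
import Pool.Agent.Helper2.KW.P0a
import Pool.Agent.Helper28.HN.Cfg
import Pool.Agent.Helper80.HN.Nat

/-!
# `p`-adic configurations near a configuration over a number field
-/

set_option autoImplicit false

namespace Pool.Agent.Helper45.HN

open MvPolynomial Finset Pool.Agent.Helper28.HN
open Pool.Agent.Helper80.HN

section

variable {m : ℕ} {S T : Type*} [CommRing S] [CommRing T]

/-- Exchange of the two points. -/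
theorem qf_comm (c : Ix m → S) (x x' y y' : I m → S) : qf c x x' y y' = qf c x x' y' y := by
  unfold qf
  refine Finset.sum_congr rfl fun i _ => Finset.sum_congr rfl fun j _ => ?_
  rw [Finset.sum_comm]
  refine Finset.sum_congr rfl fun k _ => Finset.sum_congr rfl fun l _ => ?_
  have h : pq c i j k l = pq c i j l k := by
    unfold pq
    ring
  rw [h]
  ring

theorem qf_add_r (c : Ix m → S) (x x' y a b : I m → S) (z : S) :
    qf c x x' y (fun i => a i + z * b i) = qf c x x' y a + z * qf c x x' y b := by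
  unfold qf
  simp only [Finset.mul_sum, ← Finset.sum_add_distrib]
  refine Finset.sum_congr rfl fun i _ => Finset.sum_congr rfl fun j _ =>
    Finset.sum_congr rfl fun k _ => Finset.sum_congr rfl fun l _ => ?_
  ring

/-- The quadratic polynomial. -/
theorem Fh_eq (c : Ix m → S) (x : I m → S) (z : S) :
    Fh c x z = Ah c x * z ^ 2 + 2 * Bh c x * z + Ch c x := by
  have h : yh c x z = fun i => Y0 c x i + z * Y1 c x i := rfl
  unfold Fh
  rw [h, qf_add_r, qf_comm c x x (fun i => Y0 c x i + z * Y1 c x i) (Y0 c x),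
    qf_comm c x x (fun i => Y0 c x i + z * Y1 c x i) (Y1 c x), qf_add_r, qf_add_r,
    qf_comm c x x (Y1 c x) (Y0 c x)]
  unfold Ah Bh Ch
  ring

/-- The equations at the values. -/
theorem eval_Gs (c : Ix m → S) (k : Un m → S) (i : En m) : eval k (Gs c i) = Eqn c k i := by
  unfold Gs
  rw [map_Eqn]
  simp

theorem map_Gs (f : S →+* T) (c : Ix m → S) (i : En m) : map f (Gs c i) = Gs (fun e => f (c e)) i := by
  unfold Gs
  rw [map_Eqn]
  simp

/-- The product as a polynomial. -/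
theorem eval_Pp (c : Ix m → S) (k : Un m → S) :
    eval k (Pp (fun e => C (c e)) X : MvPolynomial (Un m) S) = Pp c k := by
  rw [map_Pp]
  simp

/-- The leading coefficient of the derivative at the start. -/
noncomputable def q0 (c : Ix m → S) (k : Un m → S) : S :=
  qa c (aff fun i => k (.inl i)) (xz c (fun i => k (.inl i)) (k (.inr 0)))

theorem map_q0 (f : S →+* T) (c : Ix m → S) (k : Un m → S) :
    f (q0 c k) = q0 (fun e => f (c e)) (fun a => f (k a)) := by
  unfold q0
  rw [map_qa]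
  simp only [map_aff, map_xz]

theorem eval_q0 (c : Ix m → S) (k : Un m → S) :
    eval k (q0 (fun e => C (c e)) X : MvPolynomial (Un m) S) = q0 c k := by
  rw [map_q0]
  simp

end

/-- The right hand sides. -/
def rh {m : ℕ} (b : Bool) (p : ℕ) : En m → ℤ
  | .inr (.inl 2) => if b then 0 else p ^ 2
  | .inr (.inl 3) => if b then p ^ 2 else 0
  | .inr (.inl 4) => p
  | _ => 0

theorem dvd_rh {m : ℕ} (b : Bool) (p : ℕ) (i : En m) : (p : ℤ) ∣ rh b p i := by
  unfold rh
  split
  · split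
    · exact dvd_zero _
    · exact dvd_pow_self _ two_ne_zero
  · split
    · exact dvd_pow_self _ two_ne_zero
    · exact dvd_zero _
  · exact dvd_refl _
  · exact dvd_zero _

/-- The algebra of the configuration. -/
theorem cfg_of {p : ℕ} [Fact p.Prime] (hp : p ≠ 2) {m : ℕ} (c : Ix m → ℤ_[p]) (k : Un m → ℤ_[p]) (b : Bool)
    (h : ∀ i, Eqn c k i = (rh b p i : ℤ)) (hP : IsUnit (Pp c k)) (hb : b = true ↔ IsUnit (q0 c k)) : Cfg c k := by
  have hp2 : ‖(2 : ℤ_[p])‖ = 1 := by
    have h1 : ‖((2 : ℤ) : ℤ_[p])‖ = 1 := by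
      refine le_antisymm (PadicInt.norm_le_one _) ?_
      by_contra hcon
      push Not at hcon
      rw [PadicInt.norm_intCast_lt_one_iff] at hcon
      have h2 : p ∣ 2 := by exact_mod_cast hcon
      exact hp ((Nat.prime_dvd_prime_iff_eq Fact.out Nat.prime_two).1 h2)
    exact_mod_cast h1
  have hpsi : ∀ a, psh c (aff fun i => k (.inl i)) (k (.inr a)) = 0 := by
    intro a
    have := h (.inl a)
    simpa [Eqn, rh] using this
  have hkap : kah c (aff fun i => k (.inl i)) (k (.inr 0)) = 0 := by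
    have := h (.inr (.inl 0))
    simpa [Eqn, rh] using this
  have hF0 : Fh c (aff fun i => k (.inl i)) (k (.inr 0)) = 0 := by
    have := h (.inr (.inl 1))
    simpa [Eqn, rh] using this
  have hA : Ah c (aff fun i => k (.inl i)) = if b then 0 else (p : ℤ_[p]) ^ 2 := by
    have := h (.inr (.inl 2))
    cases b <;> simpa [Eqn, rh] using this
  have hB : Bh c (aff fun i => k (.inl i)) = if b then (p : ℤ_[p]) ^ 2 else 0 := by
    have := h (.inr (.inl 3))
    cases b <;> simpa [Eqn, rh] using this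
  have hq : qh c (aff fun i => k (.inl i)) (xz c (fun i => k (.inl i)) (k (.inr 1)))
      (k (.inr (Fin.last (m + 1)))) = p := by
    have := h (.inr (.inl 4))
    simpa [Eqn, rh] using this
  have hpp : ‖(p : ℤ_[p]) ^ 2‖ = (p : ℝ) ^ (-2 : ℤ) := by
    rw [norm_pow, PadicInt.norm_p, inv_pow, zpow_neg]
    norm_cast
  have h0 : (0 : ℝ) ≤ (p : ℝ) ^ (-2 : ℤ) := zpow_nonneg (Nat.cast_nonneg _) _
  have hu := hP
  simp only [Pp, IsUnit.mul_iff] at hu
  obtain ⟨⟨⟨⟨⟨⟨-, hu1⟩, -⟩, -⟩, -⟩, hu2⟩, -⟩ := hu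
  have hl0 : (0 : Fin (m + 2)) ≠ Fin.last (m + 1) := by
    intro hcon
    have := congrArg Fin.val hcon
    simp at this
  have hu3 : IsUnit (k (.inr 0) - k (.inr (Fin.last (m + 1)))) := by
    have h1 := isUnit_of_dvd_unit (Finset.dvd_prod_of_mem _ (mem_univ (0 : Fin (m + 2)))) hu1
    have h2 := isUnit_of_dvd_unit (Finset.dvd_prod_of_mem _ (mem_univ (Fin.last (m + 1)))) h1
    rwa [if_neg hl0] at h2
  have hu4 : IsUnit (qh c (aff fun i => k (.inl i)) (xz c (fun i => k (.inl i)) (k (.inr 0)))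
      (k (.inr (Fin.last (m + 1))))) := by
    have h1 := isUnit_of_dvd_unit (Finset.dvd_prod_of_mem _ (mem_univ (0 : Fin (m + 2)))) hu2
    have h2 := isUnit_of_dvd_unit (Finset.dvd_prod_of_mem _ (mem_univ (Fin.last (m + 1)))) h1
    rwa [if_neg (by
      rintro (h3 | ⟨h3, -⟩)
      · exact hl0 h3
      · have := congrArg Fin.val h3
        simp at this)] at h2
  refine ⟨hpsi, hkap, hF0, ?_, ?_, ?_, hP, ?_⟩
  · rw [hA]
    split
    · rw [norm_zero]
      exact h0
    · exact hpp.le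
  · rw [hB]
    split
    · exact hpp.le
    · rw [norm_zero]
      exact h0
  · rw [hq, PadicInt.norm_p, zpow_neg_one]
  · rw [Fh_eq] at hF0 ⊢
    have hC : Ch c (aff fun i => k (.inl i)) = - (Ah c (aff fun i => k (.inl i)) * k (.inr 0) ^ 2 +
        2 * Bh c (aff fun i => k (.inl i)) * k (.inr 0)) := by
      linear_combination hF0
    obtain ⟨q, hqd⟩ : ∃ q, q = qh c (aff fun i => k (.inl i)) (xz c (fun i => k (.inl i)) (k (.inr 0)))
      (k (.inr (Fin.last (m + 1)))) := ⟨_, rfl⟩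
    obtain ⟨e, hed⟩ : ∃ e, e = qa c (aff fun i => k (.inl i)) (xz c (fun i => k (.inl i)) (k (.inr 0))) := ⟨_, rfl⟩
    obtain ⟨z, hzd⟩ : ∃ z, z = k (.inr (Fin.last (m + 1))) := ⟨_, rfl⟩
    obtain ⟨z0, hz0d⟩ : ∃ z0, z0 = k (.inr 0) := ⟨_, rfl⟩
    have hb' : b = true ↔ IsUnit e := by rw [hb, hed]; rfl
    rw [← hqd] at hu4 ⊢
    rw [← hzd, ← hz0d] at hu3
    rw [hC, ← hed, ← hzd, ← hz0d, hA, hB]
    rw [PadicInt.isUnit_iff] at hu3 hu4
    cases b with
    | true =>
      have h1 : ‖e‖ = 1 := PadicInt.isUnit_iff.1 (hb'.1 rfl)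
      have h2 : (if true = true then (0 : ℤ_[p]) else (p : ℤ_[p]) ^ 2) * q -
          e * ((if true = true then (0 : ℤ_[p]) else (p : ℤ_[p]) ^ 2) * z ^ 2 +
            2 * (if true = true then (p : ℤ_[p]) ^ 2 else 0) * z +
            -((if true = true then (0 : ℤ_[p]) else (p : ℤ_[p]) ^ 2) * z0 ^ 2 +
            2 * (if true = true then (p : ℤ_[p]) ^ 2 else 0) * z0)) =
          e * (2 * (p : ℤ_[p]) ^ 2 * (z0 - z)) := by
        simp only [if_true]
        ring
      rw [h2, norm_mul, norm_mul, norm_mul, h1, hp2, hpp, hu3]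
      ring
    | false =>
      have h1 : ‖e‖ < 1 := by
        by_contra hcon
        have h3 : ‖e‖ = 1 := le_antisymm (PadicInt.norm_le_one _) (not_lt.1 hcon)
        have h4 := hb'.2 (PadicInt.isUnit_iff.2 h3)
        exact absurd h4 (by simp)
      have h2 : (if false = true then (0 : ℤ_[p]) else (p : ℤ_[p]) ^ 2) * q -
          e * ((if false = true then (0 : ℤ_[p]) else (p : ℤ_[p]) ^ 2) * z ^ 2 +
            2 * (if false = true then (p : ℤ_[p]) ^ 2 else 0) * z +
            -((if false = true then (0 : ℤ_[p]) else (p : ℤ_[p]) ^ 2) * z0 ^ 2 +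
            2 * (if false = true then (p : ℤ_[p]) ^ 2 else 0) * z0)) =
          (p : ℤ_[p]) ^ 2 * (q + - (e * (z ^ 2 - z0 ^ 2))) := by
        simp only [Bool.false_eq_true, if_false]
        ring
      have h3 : ‖e * (z ^ 2 - z0 ^ 2)‖ < 1 := by
        rw [norm_mul]
        calc ‖e‖ * ‖z ^ 2 - z0 ^ 2‖ ≤ ‖e‖ * 1 :=
              mul_le_mul_of_nonneg_left (PadicInt.norm_le_one _) (norm_nonneg _)
          _ < 1 := by rwa [mul_one]
      rw [h2, norm_mul, hpp, IsUltrametricDist.norm_add_eq_max_of_norm_ne_norm (by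
        rw [norm_neg, hu4]
        exact h3.ne'), norm_neg, hu4, max_eq_left h3.le, mul_one]

/-- Near a configuration over a number field there are `p`-adic configurations. -/
theorem exists_padic {m : ℕ} (hm : 4 ≤ m) {L : Type} [Field L] [NumberField L] (c : Ix m → L)
    (k : Un m → L) (hE : ∀ i, Eqn c k i = 0) (hP : Pp c k ≠ 0)
    (hJ : (Matrix.of fun i j => eval k (pderiv j (Gs c (ee hm i)))).det ≠ 0) :
    ∃ (p : ℕ) (_ : Fact p.Prime) (φ : L →+* ℚ_[p]) (c' : Ix m → ℤ_[p]) (k' : Un m → ℤ_[p])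
      (K : IntermediateField ℚ ℚ_[p]), p ≠ 2 ∧ FiniteDimensional ℚ K ∧ (∀ x, φ x ∈ K) ∧
      (∀ i, (k' i : ℚ_[p]) ∈ K) ∧ (∀ e, (c' e : ℚ_[p]) = φ (c e)) ∧ Cfg c' k' := by
  classical
  set Jd : L := (Matrix.of fun i j => eval k (pderiv j (Gs c (ee hm i)))).det with hJd
  let S : Finset L := (univ.image c ∪ univ.image k) ∪ {Jd, Pp c k, q0 c k}
  obtain ⟨p, hp, φ, hp2, hφ⟩ := Pool.Agent.Helper2.KW.exists_embedding S
  have hS1 : ∀ x ∈ S, ‖φ x‖ ≤ 1 := by
    intro x hx
    by_cases h : x = 0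
    · rw [h, map_zero, norm_zero]
      exact zero_le_one
    · exact (hφ x hx h).le
  have hcS : ∀ e, c e ∈ S := fun e =>
    mem_union_left _ (mem_union_left _ (mem_image_of_mem _ (mem_univ e)))
  have hkS : ∀ i, k i ∈ S := fun i =>
    mem_union_left _ (mem_union_right _ (mem_image_of_mem _ (mem_univ i)))
  have hJS : Jd ∈ S := mem_union_right _ (by simp)
  have hPS : Pp c k ∈ S := mem_union_right _ (by simp)
  have hqS : q0 c k ∈ S := mem_union_right _ (by simp)
  obtain ⟨b, hb⟩ : ∃ b : Bool, b = true ↔ q0 c k ≠ 0 := ⟨decide (q0 c k ≠ 0), by simp⟩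
  set ψ : ℤ_[p] →+* ℚ_[p] := PadicInt.Coe.ringHom (p := p) with hψ
  have hψn : ∀ x : ℤ_[p], ‖ψ x‖ = ‖x‖ := fun x => rfl
  have hψi : Function.Injective ψ := Subtype.val_injective
  let c' : Ix m → ℤ_[p] := fun e => ⟨φ (c e), hS1 _ (hcS e)⟩
  let k1 : Un m → ℤ_[p] := fun i => ⟨φ (k i), hS1 _ (hkS i)⟩
  have hc' : (fun e => ψ (c' e)) = fun e => φ (c e) := rfl
  have hk1 : (fun i => ψ (k1 i)) = fun i => φ (k i) := rfl
  -- the neighbouring solution
  have hrt : ∀ i : En m, ‖φ ((rh b p i : ℤ) : L)‖ < 1 := by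
    intro i
    rw [map_intCast]
    exact (Padic.norm_intCast_lt_one_iff).2 (dvd_rh b p i)
  obtain ⟨k2, K', hfin, hφK, hk2K, hk2, hk2k, -⟩ := Pool.Agent.Helper45.XN.exists_near φ
    (fun i => Gs c (ee hm i)) (fun i mo => by
      have h4 : φ (coeff mo (Gs c (ee hm i))) = ψ (coeff mo (Gs c' (ee hm i))) := by
        rw [← coeff_map, ← coeff_map, map_Gs, map_Gs]
        rfl
      rw [h4]
      exact PadicInt.norm_le_one _) k (fun i => hS1 _ (hkS i))
    (fun i => ((rh b p (ee hm i) : ℤ) : L))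
    (fun i => by
      rw [eval_Gs, hE, zero_sub, map_neg, norm_neg]
      exact hrt _) (hφ _ hJS hJ)
  have hk2n : ∀ i, ‖k2 i‖ ≤ 1 := by
    intro i
    have h4 : k2 i = (k2 i - φ (k i)) + φ (k i) := by ring
    rw [h4]
    exact (IsUltrametricDist.norm_add_le_max _ _).trans (max_le (hk2k i).le (hS1 _ (hkS i)))
  let k' : Un m → ℤ_[p] := fun i => ⟨k2 i, hk2n i⟩
  have hk' : (fun i => ψ (k' i)) = k2 := rfl
  have hkk : ‖k' - k1‖ < 1 := (pi_norm_lt_iff one_pos).2 fun i => hk2k i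
  have hunit : ∀ (P : MvPolynomial (Un m) ℤ_[p]) (x : L), ψ (eval k1 P) = φ x →
      (IsUnit (eval k' P) ↔ ‖φ x‖ = 1) := by
    intro P x hx
    have h4 := (Pool.Agent.Helper45.XN.norm_eval_sub_le P k' k1).trans_lt hkk
    rw [← hx, hψn, PadicInt.isUnit_iff]
    obtain ⟨u, hu⟩ : ∃ u, u = eval k' P := ⟨_, rfl⟩
    obtain ⟨v, hv⟩ : ∃ v, v = eval k1 P := ⟨_, rfl⟩
    rw [← hu, ← hv] at h4 ⊢
    constructor
    · intro h5
      have h6 : v = u - (u - v) := by ring
      rw [h6, sub_eq_add_neg, IsUltrametricDist.norm_add_eq_max_of_norm_ne_norm (by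
        rw [norm_neg, h5]
        exact h4.ne'), norm_neg, h5, max_eq_left h4.le]
    · intro h5
      have h6 : u = v + (u - v) := by ring
      rw [h6, IsUltrametricDist.norm_add_eq_max_of_norm_ne_norm (by
        rw [h5]
        exact h4.ne'), h5, max_eq_left h4.le]
  refine ⟨p, hp, φ, c', k', K', hp2, hfin, hφK, hk2K, fun e => rfl, cfg_of hp2 c' k' b ?_ ?_ ?_⟩
  · intro i
    apply hψi
    have h4 := hk2 ((ee hm).symm i)
    rw [← eval_map, map_Gs, eval_Gs, Equiv.apply_symm_apply, map_intCast] at h4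
    rw [map_Eqn, hc', hk', h4, map_intCast]
  · have h4 := hunit (Pp (fun e => C (c' e)) X) (Pp c k) (by
      rw [eval_Pp, map_Pp, map_Pp]
      rfl)
    rw [eval_Pp] at h4
    exact h4.2 (hφ _ hPS hP)
  · have h4 := hunit (q0 (fun e => C (c' e)) X) (q0 c k) (by
      rw [eval_q0, map_q0, map_q0]
      rfl)
    rw [eval_q0] at h4
    rw [hb, h4]
    constructor
    · intro h5
      exact hφ _ hqS h5
    · intro h5 h6
      rw [h6, map_zero, norm_zero] at h5
      exact zero_ne_one h5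

end Pool.Agent.Helper45.HN
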