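import Pool.Agent.Helper45.XN.Near
import Pool.Agent.Helper45.XN.Ball
import Pool.Agent.Helper76.XN.ET
import Pool.Agent.Helper2.KW.P0a

/-!
# From one rational configuration to `p`-adic configurations
-/

set_option autoImplicit false

namespace Pool.Agent.Helper45.HN

open MvPolynomial Finset

section

variable {E I : Type}

/-- Substitution of the parameters. -/
noncomputable def sub {S : Type*} [CommRing S] (c : E → S) : MvPolynomial (E ⊕ I) ℤ →+* MvPolynomial I S :=
  eval₂Hom (Int.castRingHom _) (Sum.elim (fun e => C (c e)) X)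

theorem sub_pderiv {S : Type*} [CommRing S] (c : E → S) (j : I) (F : MvPolynomial (E ⊕ I) ℤ) :
    pderiv j (sub c F) = sub c (pderiv (Sum.inr j) F) := by
  classical
  induction F using MvPolynomial.induction_on with
  | C a =>
    have h1 : sub (I := I) c (C a) = C (a : S) := by
      rw [sub, coe_eval₂Hom, eval₂_C, eq_intCast, map_intCast]
    rw [h1, pderiv_C, pderiv_C, map_zero]
  | add F G hF hG => rw [map_add, map_add, map_add, map_add, hF, hG]
  | mul_X F s hF =>
    rw [map_mul, Derivation.leibniz, Derivation.leibniz, map_add, hF]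
    simp only [smul_eq_mul, map_mul]
    congr 2
    rcases s with e | i
    · simp [sub, pderiv_X]
    · simp [sub, pderiv_X, Pi.single_apply]

/-- Values. -/
theorem eval_sub {S : Type*} [CommRing S] (c : E → S) (k : I → S) (F : MvPolynomial (E ⊕ I) ℤ) :
    eval k (sub c F) = eval₂ (Int.castRingHom S) (Sum.elim c k) F := by
  have h1 : (eval k).comp (sub c) = eval₂Hom (Int.castRingHom S) (Sum.elim c k) := by
    refine ringHom_ext (fun a => ?_) fun s => ?_
    · simp [sub]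
    · rcases s with e | i <;> simp [sub]
  exact DFunLike.congr_fun h1 F

theorem map_sub' {S T : Type*} [CommRing S] [CommRing T] (f : S →+* T) (c : E → S) (F : MvPolynomial (E ⊕ I) ℤ) :
    map f (sub c F) = sub (fun e => f (c e)) F := by
  have h1 : (map f).comp (sub c) = sub (I := I) (fun e => f (c e)) := by
    refine ringHom_ext (fun a => ?_) fun s => ?_
    · simp [sub]
    · rcases s with e | i <;> simp [sub]
  exact DFunLike.congr_fun h1 F

theorem map_eval {S T : Type*} [CommRing S] [CommRing T] (f : S →+* T) (c : E → S) (k : I → S)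
    (F : MvPolynomial (E ⊕ I) ℤ) : f (eval₂ (Int.castRingHom S) (Sum.elim c k) F) =
      eval₂ (Int.castRingHom T) (Sum.elim (fun e => f (c e)) fun i => f (k i)) F := by
  have h1 : f.comp (eval₂Hom (Int.castRingHom S) (Sum.elim c k)) =
      eval₂Hom (Int.castRingHom T) (Sum.elim (fun e => f (c e)) fun i => f (k i)) := by
    refine ringHom_ext (fun a => ?_) fun s => ?_
    · simp
    · rcases s with e | i <;> simp
  exact DFunLike.congr_fun h1 F

end

/-- Values at near points. -/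
theorem norm_eval_sub {p : ℕ} [Fact p.Prime] {E I : Type} [Fintype E] [Fintype I] (c : E → ℤ_[p]) (k k' : I → ℤ_[p])
    (F : MvPolynomial (E ⊕ I) ℤ) (h : ∀ i, ‖k i - k' i‖ < 1) :
    ‖eval₂ (Int.castRingHom ℤ_[p]) (Sum.elim c k) F - eval₂ (Int.castRingHom ℤ_[p]) (Sum.elim c k') F‖ < 1 := by
  rw [← eval_sub, ← eval_sub]
  refine (Pool.Agent.Helper45.XN.norm_eval_sub_le _ _ _).trans_lt ?_
  exact (pi_norm_lt_iff one_pos).2 h

/-- The abstract form. -/
theorem cfg_abs {E I : Type} [Fintype E] [Fintype I] [DecidableEq I] (F : I → MvPolynomial (E ⊕ I) ℤ)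
    (G W : MvPolynomial (E ⊕ I) ℤ) (c0 : E → ℚ) (k0 : I → ℚ)
    (hF : ∀ i, eval₂ (Int.castRingHom ℚ) (Sum.elim c0 k0) (F i) = 0)
    (hJ : (Matrix.of fun i j => eval₂ (Int.castRingHom ℚ) (Sum.elim c0 k0) (pderiv (Sum.inr j) (F i))).det ≠ 0)
    (hG : eval₂ (Int.castRingHom ℚ) (Sum.elim c0 k0) G ≠ 0)
    (r : Bool → I → ℕ → ℤ) (hr : ∀ b i (p : ℕ), (p : ℤ) ∣ r b i p) (B : ℕ) :
    ∃ Δ : MvPolynomial E ℚ, Δ ≠ 0 ∧ ∀ (K : Type) [Field K] [NumberField K] (c : E → K), aeval c Δ ≠ 0 →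
      ∃ (p : ℕ) (_ : Fact p.Prime) (K' : IntermediateField ℚ ℚ_[p]) (ι : K →+* K') (c' : E → ℤ_[p])
        (k : I → ℤ_[p]) (b : Bool), B < p ∧ FiniteDimensional ℚ K' ∧
        (∀ e, (c' e : ℚ_[p]) = (ι (c e) : ℚ_[p])) ∧ (∀ i, (k i : ℚ_[p]) ∈ K') ∧
        (∀ i, eval₂ (Int.castRingHom ℤ_[p]) (Sum.elim c' k) (F i) = (r b i p : ℤ)) ∧
        IsUnit (eval₂ (Int.castRingHom ℤ_[p]) (Sum.elim c' k) G) ∧
        (b = true ↔ IsUnit (eval₂ (Int.castRingHom ℤ_[p]) (Sum.elim c' k) W)) := by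
  classical
  have hev : ∀ (P : MvPolynomial (E ⊕ I) ℤ) (x : E ⊕ I → ℚ),
      eval x (map (Int.castRingHom ℚ) P) = eval₂ (Int.castRingHom ℚ) x P := fun P x => eval_map _ _ _
  obtain ⟨Δ, hΔ, hET⟩ := Pool.Agent.Helper76.XN.et (fun i => map (Int.castRingHom ℚ) (F i))
    (map (Int.castRingHom ℚ) G) c0 k0 (fun i => by rw [hev]; exact hF i)
    (by
      simp only [pderiv_map, hev]
      exact hJ) (by rw [hev]; exact hG)
  refine ⟨Δ, hΔ, fun K _ _ c hc => ?_⟩
  obtain ⟨L, _, _, _, _, k1, h1, h2, h3⟩ := hET K c hc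
  have hLnf : NumberField L := NumberField.of_module_finite K L
  have hevL : ∀ (P : MvPolynomial (E ⊕ I) ℤ) (x : E ⊕ I → L),
      aeval x (map (Int.castRingHom ℚ) P) = eval₂ (Int.castRingHom L) x P := by
    intro P x
    rw [aeval_def, eval₂_map]
    congr 1
    exact RingHom.ext_int _ _
  simp only [pderiv_map, hevL] at h1 h2 h3
  set cL : E → L := fun e => algebraMap K L (c e) with hcL
  set Jd : L := (Matrix.of fun i j => eval₂ (Int.castRingHom L) (Sum.elim cL k1) (pderiv (Sum.inr j) (F i))).det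
    with hJd
  set G1 : L := eval₂ (Int.castRingHom L) (Sum.elim cL k1) G with hG1
  set W1 : L := eval₂ (Int.castRingHom L) (Sum.elim cL k1) W with hW1
  -- the embedding
  let S : Finset L := (univ.image cL ∪ univ.image k1) ∪ ({Jd, G1, W1} ∪ Finset.image (fun n : ℕ => (n : L)) (range (B + 1)))
  obtain ⟨p, hp, φ, -, hφ⟩ := Pool.Agent.Helper2.KW.exists_embedding S
  have hS1 : ∀ x ∈ S, ‖φ x‖ ≤ 1 := by
    intro x hx
    by_cases h : x = 0
    · rw [h, map_zero, norm_zero]
      exact zero_le_one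
    · exact (hφ x hx h).le
  have hcS : ∀ e, cL e ∈ S := fun e =>
    mem_union_left _ (mem_union_left _ (mem_image_of_mem _ (mem_univ e)))
  have hkS : ∀ i, k1 i ∈ S := fun i =>
    mem_union_left _ (mem_union_right _ (mem_image_of_mem _ (mem_univ i)))
  have hJS : Jd ∈ S := mem_union_right _ (mem_union_left _ (by simp))
  have hGS : G1 ∈ S := mem_union_right _ (mem_union_left _ (by simp))
  have hWS : W1 ∈ S := mem_union_right _ (mem_union_left _ (by simp))
  have hBp : B < p := by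
    by_contra hcon
    push Not at hcon
    have h4 : ((p : ℕ) : L) ∈ S := mem_union_right _ (mem_union_right _
      (Finset.mem_image.2 ⟨p, mem_range.2 (Nat.lt_succ_of_le hcon), rfl⟩))
    have h5 := hφ _ h4 (Nat.cast_ne_zero.2 hp.out.ne_zero)
    rw [map_natCast, Padic.norm_p] at h5
    have h6 : (1 : ℝ) < p := by exact_mod_cast hp.out.one_lt
    have h7 := inv_lt_one_of_one_lt₀ h6
    rw [h5] at h7
    exact lt_irrefl _ h7
  obtain ⟨b, hb⟩ : ∃ b : Bool, b = true ↔ W1 ≠ 0 := ⟨decide (W1 ≠ 0), by simp⟩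
  -- integral data
  set ψ : ℤ_[p] →+* ℚ_[p] := PadicInt.Coe.ringHom (p := p) with hψ
  have hψn : ∀ x : ℤ_[p], ‖ψ x‖ = ‖x‖ := fun x => rfl
  have hψi : Function.Injective ψ := Subtype.val_injective
  let c' : E → ℤ_[p] := fun e => ⟨φ (cL e), hS1 _ (hcS e)⟩
  let k' : I → ℤ_[p] := fun i => ⟨φ (k1 i), hS1 _ (hkS i)⟩
  have hc' : ∀ e, ψ (c' e) = φ (cL e) := fun e => rfl
  have hk' : ∀ i, ψ (k' i) = φ (k1 i) := fun i => rfl
  have hval : ∀ P : MvPolynomial (E ⊕ I) ℤ, ψ (eval₂ (Int.castRingHom ℤ_[p]) (Sum.elim c' k') P) =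
      φ (eval₂ (Int.castRingHom L) (Sum.elim cL k1) P) := by
    intro P
    rw [map_eval, map_eval]
    rfl
  -- the neighbouring solution
  have hrt : ∀ i, ‖φ ((r b i p : ℤ) : L)‖ < 1 := by
    intro i
    rw [map_intCast]
    exact (Padic.norm_intCast_lt_one_iff).2 (hr b i p)
  obtain ⟨k2, K', hfin, hφK, hk2K, hk2, hk2k, -⟩ := Pool.Agent.Helper45.XN.exists_near φ
    (fun i => sub cL (F i)) (fun i mo => by
      have h4 : φ (coeff mo (sub cL (F i))) = ψ (coeff mo (sub c' (F i))) := by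
        rw [← coeff_map, ← coeff_map, map_sub', map_sub']
        rfl
      rw [h4]
      exact PadicInt.norm_le_one _) k1 (fun i => hS1 _ (hkS i)) (fun i => ((r b i p : ℤ) : L))
    (fun i => by
      rw [eval_sub, h1, zero_sub, map_neg, norm_neg]
      exact hrt i) (by
      simp only [sub_pderiv, eval_sub]
      exact hφ _ hJS h2)
  have hk2n : ∀ i, ‖k2 i‖ ≤ 1 := by
    intro i
    have h4 : k2 i = (k2 i - φ (k1 i)) + φ (k1 i) := by ring
    rw [h4]
    exact (IsUltrametricDist.norm_add_le_max _ _).trans (max_le (hk2k i).le (hS1 _ (hkS i)))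
  let k : I → ℤ_[p] := fun i => ⟨k2 i, hk2n i⟩
  have hk : ∀ i, ψ (k i) = k2 i := fun i => rfl
  have hkk : ∀ i, ‖k i - k' i‖ < 1 := hk2k
  have hunit : ∀ P : MvPolynomial (E ⊕ I) ℤ, IsUnit (eval₂ (Int.castRingHom ℤ_[p]) (Sum.elim c' k) P) ↔
      ‖φ (eval₂ (Int.castRingHom L) (Sum.elim cL k1) P)‖ = 1 := by
    intro P
    have h4 := norm_eval_sub c' k k' P hkk
    rw [← hval, hψn, PadicInt.isUnit_iff]
    obtain ⟨u, hu⟩ : ∃ u, u = eval₂ (Int.castRingHom ℤ_[p]) (Sum.elim c' k) P := ⟨_, rfl⟩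
    obtain ⟨v, hv⟩ : ∃ v, v = eval₂ (Int.castRingHom ℤ_[p]) (Sum.elim c' k') P := ⟨_, rfl⟩
    rw [← hu, ← hv] at h4 ⊢
    constructor
    · intro h5
      have h6 : v = u - (u - v) := by ring
      rw [h6, sub_eq_add_neg, IsUltrametricDist.norm_add_eq_max_of_norm_ne_norm (by
        rw [norm_neg, h5]
        exact h4.ne'), norm_neg, h5, max_eq_left h4.le]
    · intro h5
      have h6 : u = v + (u - v) := by ring
      rw [h6, IsUltrametricDist.norm_add_eq_max_of_norm_ne_norm (by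
        rw [h5]
        exact h4.ne'), h5, max_eq_left h4.le]
  let ι : K →+* K' := (φ.comp (algebraMap K L)).codRestrict K'.toSubfield fun x => hφK _
  refine ⟨p, hp, K', ι, c', k, b, hBp, hfin, fun e => rfl, hk2K, fun i => ?_, ?_, ?_⟩
  · apply hψi
    have h4 := hk2 i
    have h5 : eval₂ φ k2 (sub cL (F i)) = eval k2 (map φ (sub cL (F i))) := (eval_map _ _ _).symm
    rw [h5, map_sub', eval_sub] at h4
    rw [map_eval]
    simp only [hc', hk]
    rw [h4, map_intCast, map_intCast]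
  · exact (hunit G).2 (hφ _ hGS h3)
  · rw [hb, hunit W]
    constructor
    · intro h4
      exact hφ _ hWS h4
    · intro h4 h5
      rw [← hW1, h5, map_zero, norm_zero] at h4
      exact zero_ne_one h4

end Pool.Agent.Helper45.HN
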